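import Pool.Agent.Helper47.SD.Defs

open scoped TensorProduct

namespace Pool.SD

universe u v

variable {R : Type u} [Ring R]

theorem PP.Le.refl (φ : PP R) : PP.Le φ φ := fun _ _ _ _ h => h

theorem PP.Le.trans {φ ψ χ : PP R} (h : PP.Le φ ψ) (h' : PP.Le ψ χ) : PP.Le φ χ :=
  fun M _ _ x hx => h' M x (h M x hx)

theorem PP.sat_inf (φ ψ : PP R) (M : Type v) [AddCommGroup M] [Module Rᵐᵒᵖ M] (x : M) :
    (φ.inf ψ).Sat M x ↔ φ.Sat M x ∧ ψ.Sat M x := by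
  have key : (φ.inf ψ).Sat M x ↔ ∃ y : Fin (φ.l + ψ.l) → M, ∀ j : Fin (φ.m + ψ.m),
      MulOpposite.op (Fin.append φ.a ψ.a j) • x =
        ∑ i : Fin (φ.l + ψ.l),
          MulOpposite.op ((Fin.append (fun i => Fin.append (φ.b i) (fun _ => 0))
              (fun i => Fin.append (fun _ => 0) (ψ.b i)) : Fin (φ.l + ψ.l) → _) i j) • y i :=
    Iff.rfl
  rw [key]
  constructor
  · rintro ⟨y, hy⟩
    refine ⟨⟨fun i => y (Fin.castAdd _ i), fun j => ?_⟩, ⟨fun i => y (Fin.natAdd _ i), fun j => ?_⟩⟩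
    · have := hy (Fin.castAdd _ j)
      simpa [Fin.sum_univ_add] using this
    · have := hy (Fin.natAdd _ j)
      simpa [Fin.sum_univ_add] using this
  · rintro ⟨⟨y, hy⟩, ⟨z, hz⟩⟩
    refine ⟨Fin.append y z, fun j => ?_⟩
    refine Fin.addCases (fun j => ?_) (fun j => ?_) j
    · simpa [Fin.sum_univ_add] using hy j
    · simpa [Fin.sum_univ_add] using hz j

theorem PP.sat_sup (φ ψ : PP R) (M : Type v) [AddCommGroup M] [Module Rᵐᵒᵖ M] (x : M) :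
    (φ.sup ψ).Sat M x ↔ ∃ x₁ x₂ : M, x = x₁ + x₂ ∧ φ.Sat M x₁ ∧ ψ.Sat M x₂ := by
  have key : (φ.sup ψ).Sat M x ↔ ∃ y : Fin (1 + (φ.l + ψ.l)) → M, ∀ j : Fin (φ.m + ψ.m),
      MulOpposite.op (Fin.append φ.a (fun _ => (0 : R)) j) • x =
        ∑ i : Fin (1 + (φ.l + ψ.l)),
          MulOpposite.op ((Fin.append (fun _ : Fin 1 => Fin.append φ.a (fun j => - ψ.a j))
            (Fin.append (fun i => Fin.append (φ.b i) (fun _ => 0))
              (fun i => Fin.append (fun _ => 0) (ψ.b i))) : Fin (1 + (φ.l + ψ.l)) → _) i j) • y i :=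
    Iff.rfl
  rw [key]
  constructor
  · rintro ⟨y, hy⟩
    refine ⟨x - y (Fin.castAdd _ 0), y (Fin.castAdd _ 0), by abel,
      ⟨fun i => y (Fin.natAdd _ (Fin.castAdd _ i)), fun j => ?_⟩,
      ⟨fun i => y (Fin.natAdd _ (Fin.natAdd _ i)), fun j => ?_⟩⟩
    · have := hy (Fin.castAdd _ j)
      simp [Fin.sum_univ_add] at this
      rw [smul_sub, this]
      simp
    · have := hy (Fin.natAdd _ j)
      simp [Fin.sum_univ_add] at this
      rw [eq_comm, neg_add_eq_zero] at this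
      exact this
  · rintro ⟨x₁, x₂, rfl, ⟨y, hy⟩, ⟨z, hz⟩⟩
    refine ⟨Fin.append (fun _ => x₂) (Fin.append y z), fun j => ?_⟩
    refine Fin.addCases (fun j => ?_) (fun j => ?_) j
    · simp [Fin.sum_univ_add, hy j, add_comm]
    · simp [Fin.sum_univ_add, hz j]

theorem PP.inf_le_left (φ ψ : PP R) : PP.Le (φ.inf ψ) φ :=
  fun M _ _ x h => ((PP.sat_inf φ ψ M x).1 h).1

theorem PP.inf_le_right (φ ψ : PP R) : PP.Le (φ.inf ψ) ψ :=
  fun M _ _ x h => ((PP.sat_inf φ ψ M x).1 h).2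

theorem PP.le_inf {φ ψ χ : PP R} (h : PP.Le χ φ) (h' : PP.Le χ ψ) : PP.Le χ (φ.inf ψ) :=
  fun M _ _ x hx => (PP.sat_inf φ ψ M x).2 ⟨h M x hx, h' M x hx⟩

theorem PP.Sat.zero (φ : PP R) (M : Type v) [AddCommGroup M] [Module Rᵐᵒᵖ M] :
    φ.Sat M 0 := ⟨fun _ => 0, fun j => by simp⟩

theorem PP.Sat.add (φ : PP R) {M : Type v} [AddCommGroup M] [Module Rᵐᵒᵖ M] {x x' : M}
    (h : φ.Sat M x) (h' : φ.Sat M x') : φ.Sat M (x + x') := by
  obtain ⟨y, hy⟩ := h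
  obtain ⟨z, hz⟩ := h'
  exact ⟨fun i => y i + z i, fun j => by simp [smul_add, Finset.sum_add_distrib, hy, hz]⟩

theorem PP.Sat.neg (φ : PP R) {M : Type v} [AddCommGroup M] [Module Rᵐᵒᵖ M] {x : M}
    (h : φ.Sat M x) : φ.Sat M (-x) := by
  obtain ⟨y, hy⟩ := h
  exact ⟨fun i => - y i, fun j => by simp [smul_neg, Finset.sum_neg_distrib, hy]⟩

theorem PP.le_sup_left (φ ψ : PP R) : PP.Le φ (φ.sup ψ) := fun M _ _ x h =>
  (PP.sat_sup φ ψ M x).2 ⟨x, 0, by simp, h, PP.Sat.zero ψ M⟩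

theorem PP.le_sup_right (φ ψ : PP R) : PP.Le ψ (φ.sup ψ) := fun M _ _ x h =>
  (PP.sat_sup φ ψ M x).2 ⟨0, x, by simp, PP.Sat.zero φ M, h⟩

theorem PP.sup_le {φ ψ χ : PP R} (h : PP.Le φ χ) (h' : PP.Le ψ χ) : PP.Le (φ.sup ψ) χ := by
  intro M _ _ x hx
  obtain ⟨x₁, x₂, rfl, h1, h2⟩ := (PP.sat_sup φ ψ M x).1 hx
  exact PP.Sat.add χ (h M x₁ h1) (h' M x₂ h2)

section BC

variable (K k : Type u) [Field K] [Field k] [Algebra K k]
variable {V : Type u} [AddCommGroup V] [Module K V]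
variable (T : Type u) [Ring T] [Algebra K T] [Module T V] [IsScalarTower K T V]

variable {T} in
@[simp] theorem BC.tmul_smul_tm (a : k) (t : T) (c : k) (x : V) :
    (a ⊗ₜ[K] t : k ⊗[K] T) • BC.tm K k V c x = BC.tm K k V (a * c) (t • x) := by
  change (bcHom K k T (a ⊗ₜ[K] t)) (c ⊗ₜ[K] x) = (a * c) ⊗ₜ[K] (t • x)
  simp [bcHom, TensorProduct.smul_tmul']

theorem BC.smul_tm (a c : k) (x : V) :
    a • BC.tm K k V c x = BC.tm K k V (a * c) x := by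
  change a • (c ⊗ₜ[K] x) = (a * c) ⊗ₜ[K] x
  simp [TensorProduct.smul_tmul']

variable {K k} in
@[elab_as_elim]
theorem BC.induction_on {p : BC K k V → Prop} (x : BC K k V) (zero : p 0)
    (tm : ∀ c v, p (BC.tm K k V c v)) (add : ∀ x y, p x → p y → p (x + y)) : p x :=
  TensorProduct.induction_on (motive := p) x zero tm add

end BC

end Pool.SD
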