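import Pool.Agent.Helper47.SD.D2

/-! Block D1: `NU` passes to purely transcendental extensions of degree one (helper24). -/

namespace Pool.SD

universe u

namespace D12

open Finset Polynomial

variable {k : Type u} [Field k] {W : Type u} [AddCommGroup W] [Module k W] {ι : Type u}

/-- `E`-combinations of `1, c, …, c^(d-1)` -/
def PD (E : Subfield k) (c : k) (d : ℕ) : AddSubgroup k where
  carrier := {x | ∃ a : ℕ → k, (∀ i, a i ∈ E) ∧ x = ∑ i ∈ range d, a i * c ^ i}
  zero_mem' := ⟨fun _ => 0, fun _ => E.zero_mem, by simp⟩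
  add_mem' := by
    rintro x y ⟨a, ha, rfl⟩ ⟨a', ha', rfl⟩
    refine ⟨fun i => a i + a' i, fun i => E.add_mem (ha i) (ha' i), ?_⟩
    rw [← sum_add_distrib]
    exact sum_congr rfl fun i _ => by ring
  neg_mem' := by
    rintro x ⟨a, ha, rfl⟩
    refine ⟨fun i => - a i, fun i => E.neg_mem (ha i), ?_⟩
    rw [← sum_neg_distrib]
    exact sum_congr rfl fun i _ => by ring

theorem mem_PD {E : Subfield k} {c : k} {d : ℕ} {x : k} :
    x ∈ PD E c d ↔ ∃ a : ℕ → k, (∀ i, a i ∈ E) ∧ x = ∑ i ∈ range d, a i * c ^ i := Iff.rfl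

theorem PD_smul {E : Subfield k} {c : k} {d : ℕ} {x e : k} (he : e ∈ E) (hx : x ∈ PD E c d) :
    e * x ∈ PD E c d := by
  obtain ⟨a, ha, rfl⟩ := hx
  refine ⟨fun i => e * a i, fun i => E.mul_mem he (ha i), ?_⟩
  rw [mul_sum]
  exact sum_congr rfl fun i _ => by ring

theorem PD_mono {E : Subfield k} {c : k} {d d' : ℕ} (h : d ≤ d') : PD E c d ≤ PD E c d' := by
  rintro x ⟨a, ha, rfl⟩
  refine ⟨fun i => if i < d then a i else 0, fun i => ?_, ?_⟩
  · dsimp only
    split_ifs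
    · exact ha i
    · exact E.zero_mem
  · rw [← sum_subset (range_subset_range.mpr h)]
    · refine sum_congr rfl fun i hi => ?_
      dsimp only
      rw [if_pos (mem_range.mp hi)]
    · intro i _ hi
      dsimp only
      rw [if_neg (fun h' => hi (mem_range.mpr h')), zero_mul]

theorem PD_shift {E : Subfield k} {c : k} {d : ℕ} (j : ℕ) {x : k} (hx : x ∈ PD E c d) :
    c ^ j * x ∈ PD E c (j + d) := by
  obtain ⟨a, ha, rfl⟩ := hx
  refine ⟨fun i => if i < j then 0 else a (i - j), fun i => ?_, ?_⟩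
  · dsimp only
    split_ifs
    · exact E.zero_mem
    · exact ha _
  · dsimp only
    rw [sum_range_add, mul_sum, sum_eq_zero (s := range j), zero_add]
    · refine sum_congr rfl fun i _ => ?_
      rw [if_neg (by omega), Nat.add_sub_cancel_left, pow_add]
      ring
    · intro i hi
      rw [if_pos (mem_range.mp hi), zero_mul]

theorem PD_eval {E : Subfield k} {c : k} (p : k[X]) (hp : ∀ i, p.coeff i ∈ E) :
    p.eval c ∈ PD E c (p.natDegree + 1) :=
  ⟨p.coeff, hp, eval_eq_sum_range c⟩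

theorem coeff_mul_mem {E : Subfield k} {p q : k[X]} (hp : ∀ i, p.coeff i ∈ E)
    (hq : ∀ i, q.coeff i ∈ E) (i : ℕ) : (p * q).coeff i ∈ E := by
  rw [coeff_mul]
  exact E.sum_mem fun x _ => E.mul_mem (hp _) (hq _)

section func

variable {E : Subfield k} {c : k} {χ : ℕ → k →+ k} (hχl : ∀ j, ∀ e ∈ E, ∀ x, χ j (e * x) = e * χ j x)
  (hχv : ∀ j i : ℕ, χ j (c ^ i) = if i = j then 1 else 0)

include hχl hχv

theorem χ_sum (j d : ℕ) (a : ℕ → k) (ha : ∀ i, a i ∈ E) :
    χ j (∑ i ∈ range d, a i * c ^ i) = if j < d then a j else 0 := by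
  rw [map_sum]
  have : ∀ i ∈ range d, χ j (a i * c ^ i) = if i = j then a j else 0 := by
    intro i _
    rw [hχl j _ (ha i), hχv]
    split_ifs with h
    · rw [h, mul_one]
    · rw [mul_zero]
  rw [sum_congr rfl this, sum_ite_eq']
  simp only [mem_range]

theorem χ_of_le {j d : ℕ} (h : d ≤ j) {x : k} (hx : x ∈ PD E c d) : χ j x = 0 := by
  obtain ⟨a, ha, rfl⟩ := hx
  rw [χ_sum hχl hχv j d a ha, if_neg (by omega)]

theorem PD_of_χ {d : ℕ} {x : k} (hx : x ∈ PD E c (d + 1)) (h : χ d x = 0) : x ∈ PD E c d := by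
  obtain ⟨a, ha, rfl⟩ := hx
  rw [χ_sum hχl hχv d (d + 1) a ha, if_pos (by omega)] at h
  refine ⟨a, ha, ?_⟩
  rw [sum_range_succ, h, zero_mul, add_zero]

theorem χ_shift {d d' : ℕ} (j : ℕ) {x : k} (hx : x ∈ PD E c d') :
    χ (j + d) (c ^ j * x) = χ d x := by
  obtain ⟨a, ha, rfl⟩ := hx
  have h1 : c ^ j * ∑ i ∈ range d', a i * c ^ i =
      ∑ i ∈ range (j + d'), (if i < j then 0 else a (i - j)) * c ^ i := by
    rw [sum_range_add, mul_sum, sum_eq_zero (s := range j), zero_add]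
    · refine sum_congr rfl fun i _ => ?_
      rw [if_neg (by omega), Nat.add_sub_cancel_left, pow_add]
      ring
    · intro i hi
      rw [if_pos (mem_range.mp hi), zero_mul]
  rw [h1, χ_sum hχl hχv _ _ (fun i => if i < j then 0 else a (i - j)), χ_sum hχl hχv _ _ a ha]
  · by_cases h : d < d'
    · rw [if_pos (by omega), if_pos h, if_neg (by omega), Nat.add_sub_cancel_left]
    · rw [if_neg (by omega), if_neg h]
  · intro i
    split_ifs
    · exact E.zero_mem
    · exact ha _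

end func

/-- span of the `c ^ i • a` -/
def SA (c : k) (A : AddSubgroup W) : AddSubgroup W :=
  AddSubgroup.closure {w | ∃ i : ℕ, ∃ a ∈ A, w = c ^ i • a}

/-- span of the `x • a`, `x ∈ E'` -/
def spE (E' : Subfield k) (A : AddSubgroup W) : AddSubgroup W :=
  AddSubgroup.closure {w | ∃ x ∈ E', ∃ a ∈ A, w = x • a}

theorem SA_smul_of {c x : k} {A : AddSubgroup W}
    (hx : ∀ (i : ℕ), ∀ a ∈ A, x • c ^ i • a ∈ SA c A) {w : W} (hw : w ∈ SA c A) :
    x • w ∈ SA c A := by
  induction hw using AddSubgroup.closure_induction with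
  | mem w hw =>
    obtain ⟨i, a, ha, rfl⟩ := hw
    exact hx i a ha
  | zero => rw [smul_zero]; exact AddSubgroup.zero_mem _
  | add x y _ _ h1 h2 => rw [smul_add]; exact AddSubgroup.add_mem _ h1 h2
  | neg x _ h1 => rw [smul_neg]; exact AddSubgroup.neg_mem _ h1

theorem SA_poly {E : Subfield k} {c : k} {A : AddSubgroup W} (hA : ∀ e ∈ E, ∀ a ∈ A, e • a ∈ A)
    (r : k[X]) (hr : ∀ i, r.coeff i ∈ E) {w : W} (hw : w ∈ SA c A) :
    r.eval c • w ∈ SA c A := by
  rw [eval_eq_sum_range, sum_smul]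
  refine AddSubgroup.sum_mem _ fun j _ => ?_
  refine SA_smul_of (fun i a ha => ?_) hw
  refine AddSubgroup.subset_closure ⟨j + i, r.coeff j • a, hA _ (hr j) a ha, ?_⟩
  rw [smul_smul, smul_smul, pow_add]
  congr 1
  ring

theorem SA_normal {c : k} {A : AddSubgroup W} {w : W} (hw : w ∈ SA c A) :
    ∃ x : ℕ →₀ W, (∀ i, x i ∈ A) ∧ w = x.sum fun i a => c ^ i • a := by
  classical
  induction hw using AddSubgroup.closure_induction with
  | mem w hw =>
    obtain ⟨i, a, ha, rfl⟩ := hw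
    refine ⟨Finsupp.single i a, fun j => ?_, ?_⟩
    · rw [Finsupp.single_apply]
      split_ifs
      · exact ha
      · exact A.zero_mem
    · exact (Finsupp.sum_single_index (h := fun (i : ℕ) (a : W) => c ^ i • a) (smul_zero _)).symm
  | zero => exact ⟨0, fun _ => A.zero_mem, by simp⟩
  | add w w' _ _ h1 h2 =>
    obtain ⟨x, hx, rfl⟩ := h1
    obtain ⟨x', hx', rfl⟩ := h2
    refine ⟨x + x', fun i => A.add_mem (hx i) (hx' i), ?_⟩
    rw [Finsupp.sum_add_index' (fun _ => smul_zero _) (fun _ _ _ => smul_add _ _ _)]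
  | neg w _ h1 =>
    obtain ⟨x, hx, rfl⟩ := h1
    refine ⟨-x, fun i => A.neg_mem (hx i), ?_⟩
    rw [Finsupp.sum_neg_index (fun _ => smul_zero _)]
    simp only [smul_neg, Finsupp.sum, sum_neg_distrib]

theorem spE_denom {E E' : Subfield k} {c : k} {A : AddSubgroup W}
    (hA : ∀ e ∈ E, ∀ a ∈ A, e • a ∈ A)
    (hgen : ∀ x ∈ E', ∃ p q : Polynomial k, (∀ i, p.coeff i ∈ E) ∧ (∀ i, q.coeff i ∈ E) ∧
      q.eval c ≠ 0 ∧ x * q.eval c = p.eval c) {w : W} (hw : w ∈ spE E' A) :
    ∃ q : k[X], (∀ i, q.coeff i ∈ E) ∧ q.eval c ≠ 0 ∧ q.eval c • w ∈ SA c A := by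
  induction hw using AddSubgroup.closure_induction with
  | mem w hw =>
    obtain ⟨x, hx, a, ha, rfl⟩ := hw
    obtain ⟨p, q, hp, hq, hq0, hxq⟩ := hgen x hx
    refine ⟨q, hq, hq0, ?_⟩
    rw [smul_smul, mul_comm, hxq]
    refine SA_poly hA p hp ?_
    exact AddSubgroup.subset_closure ⟨0, a, ha, by simp⟩
  | zero => exact ⟨1, fun i => by rw [coeff_one]; split_ifs <;> [exact E.one_mem; exact E.zero_mem],
      by simp, by rw [smul_zero]; exact AddSubgroup.zero_mem _⟩
  | add w w' _ _ h1 h2 =>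
    obtain ⟨q, hq, hq0, h1⟩ := h1
    obtain ⟨q', hq', hq'0, h2⟩ := h2
    refine ⟨q * q', coeff_mul_mem hq hq', by rw [eval_mul]; exact mul_ne_zero hq0 hq'0, ?_⟩
    rw [eval_mul, smul_add]
    refine AddSubgroup.add_mem _ ?_ ?_
    · rw [mul_comm, mul_smul]
      exact SA_poly hA q' hq' h1
    · rw [mul_smul]
      exact SA_poly hA q hq h2
  | neg w _ h1 =>
    obtain ⟨q, hq, hq0, h1⟩ := h1
    refine ⟨q, hq, hq0, ?_⟩
    rw [smul_neg]
    exact AddSubgroup.neg_mem _ h1

theorem spE_stab {Ω : Set (W →ₗ[k] W)} {E E' : Subfield k} {A : AddSubgroup W}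
    (hA : Stab Ω E A) : Stab Ω E' (spE E' A) := by
  refine ⟨fun e he w hw => ?_, fun ω hω w hw => ?_⟩
  · induction hw using AddSubgroup.closure_induction with
    | mem w hw =>
      obtain ⟨x, hx, a, ha, rfl⟩ := hw
      exact AddSubgroup.subset_closure ⟨e * x, E'.mul_mem he hx, a, ha, smul_smul _ _ _⟩
    | zero => rw [smul_zero]; exact AddSubgroup.zero_mem _
    | add x y _ _ h1 h2 => rw [smul_add]; exact AddSubgroup.add_mem _ h1 h2
    | neg x _ h1 => rw [smul_neg]; exact AddSubgroup.neg_mem _ h1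
  · induction hw using AddSubgroup.closure_induction with
    | mem w hw =>
      obtain ⟨x, hx, a, ha, rfl⟩ := hw
      exact AddSubgroup.subset_closure ⟨x, hx, ω a, hA.2 ω hω a ha, map_smul _ _ _⟩
    | zero => rw [map_zero]; exact AddSubgroup.zero_mem _
    | add x y _ _ h1 h2 => rw [map_add]; exact AddSubgroup.add_mem _ h1 h2
    | neg x _ h1 => rw [map_neg]; exact AddSubgroup.neg_mem _ h1

theorem le_spE {E' : Subfield k} {A : AddSubgroup W} : A ≤ spE E' A := fun a ha =>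
  AddSubgroup.subset_closure ⟨1, E'.one_mem, a, ha, (one_smul _ _).symm⟩

theorem spE_le {E' : Subfield k} {A U : AddSubgroup W} (hU : ∀ e ∈ E', ∀ w ∈ U, e • w ∈ U)
    (h : A ≤ U) : spE E' A ≤ U := by
  refine (AddSubgroup.closure_le _).mpr ?_
  rintro w ⟨x, hx, a, ha, rfl⟩
  exact hU x hx a (h ha)

end D12

open D12 Finset Polynomial in
theorem NU.transcendental {k : Type u} [Field k] {W : Type u} [AddCommGroup W] [Module k W]
    {ι : Type u} (b : Module.Basis ι k W) (Ω : Set (W →ₗ[k] W)) (E E' : Subfield k)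
    (hEE' : E ≤ E') (hΩ : OpIn b Ω E) (c : k) (hc : c ∈ E')
    (htr : ∀ p : Polynomial k, (∀ i, p.coeff i ∈ E) → p.eval c = 0 → p = 0)
    (hgen : ∀ x ∈ E', ∃ p q : Polynomial k, (∀ i, p.coeff i ∈ E) ∧ (∀ i, q.coeff i ∈ E) ∧
      q.eval c ≠ 0 ∧ x * q.eval c = p.eval c)
    (h : NU b Ω E) : NU b Ω E' := by
  classical
  intro U hU0 hUs hUE
  -- functionals
  have hli : LinearIndependent E (fun j : ℕ => c ^ j) := by
    rw [linearIndependent_iff']
    intro s g hg i hi
    have h1 : ∀ j, (∑ i ∈ s, monomial i (g i : k)).coeff j = if j ∈ s then (g j : k) else 0 := by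
      intro j
      rw [finsetSum_coeff]
      simp only [coeff_monomial]
      rw [sum_ite_eq' s j (fun i => (g i : k))]
    have h2 := htr (∑ i ∈ s, monomial i (g i : k)) (fun j => by
      rw [h1]
      split_ifs
      · exact (g j).2
      · exact E.zero_mem) (by
      rw [eval_finsetSum]
      simp only [eval_monomial]
      exact hg)
    have h3 := h1 i
    rw [h2, coeff_zero, if_pos hi] at h3
    exact Subtype.ext h3.symm
  choose χ hχE hχl hχv using fun j => exists_functional E (fun j : ℕ => c ^ j) hli j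
  have hEmem : ∀ r : k[X], (∀ i, r.coeff i ∈ E) → r.eval c ∈ E' := by
    intro r hr
    rw [eval_eq_sum_range]
    exact E'.sum_mem fun i _ => E'.mul_mem (hEE' (hr i)) (E'.pow_mem hc i)
  -- the filtration
  have hUddef : ∀ d : ℕ, ∃ Y : AddSubgroup W, ∀ w, w ∈ Y ↔ w ∈ U ∧
      ∀ i, b.repr w i ∈ PD E c d := by
    intro d
    refine ⟨{ carrier := {w | w ∈ U ∧ ∀ i, b.repr w i ∈ PD E c d}, zero_mem' := ?_,
              add_mem' := ?_, neg_mem' := ?_ }, fun w => Iff.rfl⟩
    · intro x y hx hy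
      refine ⟨U.add_mem hx.1 hy.1, fun i => ?_⟩
      rw [map_add, Finsupp.add_apply]
      exact (PD E c d).add_mem (hx.2 i) (hy.2 i)
    · refine ⟨U.zero_mem, fun i => ?_⟩
      rw [map_zero, Finsupp.zero_apply]
      exact (PD E c d).zero_mem
    · intro x hx
      refine ⟨U.neg_mem hx.1, fun i => ?_⟩
      rw [map_neg, Finsupp.neg_apply]
      exact (PD E c d).neg_mem (hx.2 i)
  choose Ud hUd using hUddef
  have hUds : ∀ d, Stab Ω E (Ud d) := by
    intro d
    refine ⟨fun e he w hw => ?_, fun ω hω w hw => ?_⟩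
    · obtain ⟨h1, h2⟩ := (hUd d w).mp hw
      refine (hUd d _).mpr ⟨hUs.1 e (hEE' he) w h1, fun i => ?_⟩
      rw [map_smul, Finsupp.smul_apply, smul_eq_mul]
      exact PD_smul he (h2 i)
    · obtain ⟨h1, h2⟩ := (hUd d w).mp hw
      refine (hUd d _).mpr ⟨hUs.2 ω hω w h1, fun i => ?_⟩
      rw [repr_op b ω w i _ (Finset.Subset.refl _)]
      refine AddSubgroup.sum_mem _ fun j _ => ?_
      rw [mul_comm]
      exact PD_smul (hΩ ω hω j i) (h2 j)
  have hUd0 : Ud 0 = ⊥ := by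
    rw [AddSubgroup.eq_bot_iff_forall]
    intro w hw
    refine ext_repr b fun i => ?_
    obtain ⟨a, _, ha⟩ := ((hUd 0 w).mp hw).2 i
    rw [ha, map_zero, Finsupp.zero_apply, range_zero, sum_empty]
  -- some member is nonzero
  have hex : ∃ d, Ud d ≠ ⊥ := by
    obtain ⟨u, hu, hu0⟩ := ne_bot_iff.mp hU0
    have h1 : ∀ S : Finset ι, ∃ q : k[X], (∀ i, q.coeff i ∈ E) ∧ q.eval c ≠ 0 ∧
        ∀ i ∈ S, ∃ p : k[X], (∀ j, p.coeff j ∈ E) ∧ q.eval c * b.repr u i = p.eval c := by
      intro S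
      induction S using Finset.induction_on with
      | empty => exact ⟨1, fun i => by
          rw [coeff_one]; split_ifs <;> [exact E.one_mem; exact E.zero_mem], by simp, by simp⟩
      | insert i S _ ih =>
        obtain ⟨q, hq, hq0, hqS⟩ := ih
        obtain ⟨p', q', hp', hq', hq'0, hpq'⟩ := hgen _ (hUE u hu i)
        refine ⟨q * q', coeff_mul_mem hq hq', by rw [eval_mul]; exact mul_ne_zero hq0 hq'0, ?_⟩
        intro j hj
        rcases mem_insert.mp hj with rfl | hj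
        · refine ⟨q * p', coeff_mul_mem hq hp', ?_⟩
          rw [eval_mul, eval_mul, ← hpq']
          ring
        · obtain ⟨p, hp, hpq⟩ := hqS j hj
          refine ⟨q' * p, coeff_mul_mem hq' hp, ?_⟩
          rw [eval_mul, eval_mul, ← hpq]
          ring
    obtain ⟨q, hq, hq0, hqS⟩ := h1 (b.repr u).support
    choose! p hp hpq using hqS
    refine ⟨(b.repr u).support.sup (fun i => (p i).natDegree + 1), ne_bot_iff.mpr
      ⟨q.eval c • u, (hUd _ _).mpr ⟨hUs.1 _ (hEmem q hq) u hu, fun i => ?_⟩, ?_⟩⟩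
    · rw [map_smul, Finsupp.smul_apply, smul_eq_mul]
      by_cases hi : i ∈ (b.repr u).support
      · rw [hpq i hi]
        exact PD_mono (le_sup (f := fun i => (p i).natDegree + 1) hi) (PD_eval _ (hp i hi))
      · rw [Finsupp.notMem_support_iff.mp hi, mul_zero]
        exact AddSubgroup.zero_mem _
    · exact smul_ne_zero hq0 hu0
  obtain ⟨d, hd, hdmin⟩ : ∃ d, Ud (d + 1) ≠ ⊥ ∧ Ud d = ⊥ := by
    have h1 := Nat.find_spec hex
    have h2 : Nat.find hex ≠ 0 := by
      intro h0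
      rw [h0] at h1
      exact h1 hUd0
    obtain ⟨d, hd⟩ := Nat.exists_eq_succ_of_ne_zero h2
    refine ⟨d, ?_, ?_⟩
    · rw [hd] at h1; exact h1
    · have := Nat.find_min hex (m := d) (by omega)
      push Not at this
      exact this
  have hinj : ∀ w ∈ Ud (d + 1), push b (χ d) w = 0 → w = 0 := by
    intro w hw hw0
    have h1 : w ∈ Ud d := by
      refine (hUd d w).mpr ⟨((hUd _ w).mp hw).1, fun i => ?_⟩
      refine PD_of_χ hχl hχv (((hUd _ w).mp hw).2 i) ?_
      rw [← repr_push, hw0, map_zero, Finsupp.zero_apply]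
    rw [hdmin] at h1
    simpa using h1
  obtain ⟨A, B, hA, hB, hAs, hBs, hAB, hA0, hB0, _⟩ :=
    not_uniform_of_inj hΩ (χ d) (hχl d) (hχE d) h (hUds (d + 1)) hd hinj
  -- top coefficients
  have htop : ∀ A : AddSubgroup W, ∀ w ∈ SA c (pre b (χ d) (Ud (d + 1)) A), w ≠ 0 →
      ∃ j, push b (χ j) w ∈ A ∧ push b (χ j) w ≠ 0 ∧ ∀ j', j < j' → push b (χ j') w = 0 := by
    intro A w hw hw0
    obtain ⟨x, hx, hwx⟩ := SA_normal hw
    have hxPD : ∀ i j, b.repr (x i) j ∈ PD E c (d + 1) := fun i j =>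
      ((hUd _ _).mp (mem_pre.mp (hx i)).1).2 j
    have hx0 : x ≠ 0 := by
      rintro rfl
      exact hw0 (by rw [hwx]; simp)
    have hxs : x.support.Nonempty := Finsupp.support_nonempty_iff.mpr hx0
    set N := x.support.max' hxs with hN
    have hpush : ∀ j i, push b (χ (i + j)) (c ^ i • x i) = push b (χ j) (x i) := by
      intro j i
      refine ext_repr b fun l => ?_
      rw [repr_push, repr_push, map_smul, Finsupp.smul_apply, smul_eq_mul]
      exact χ_shift hχl hχv i (hxPD i l)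
    have hpush0 : ∀ j i, d + 1 + i ≤ j → push b (χ j) (c ^ i • x i) = 0 := by
      intro j i hij
      refine ext_repr b fun l => ?_
      rw [repr_push, map_smul, Finsupp.smul_apply, smul_eq_mul, map_zero, Finsupp.zero_apply]
      exact χ_of_le hχl hχv (by omega : i + (d + 1) ≤ j) (PD_shift i (hxPD i l))
    have hmax : ∀ i ∈ x.support, i ≤ N := fun i hi => le_max' _ _ hi
    have hNmem : N ∈ x.support := max'_mem _ _
    have h1 : push b (χ (N + d)) w = push b (χ d) (x N) := by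
      rw [hwx, Finsupp.sum, map_sum, sum_eq_single N]
      · exact hpush d N
      · intro i hi hiN
        have := hmax i hi
        exact hpush0 _ _ (by omega)
      · intro h'; exact absurd hNmem h'
    refine ⟨N + d, ?_, ?_, ?_⟩
    · rw [h1]; exact (mem_pre.mp (hx N)).2
    · rw [h1]
      intro h2
      exact (Finsupp.mem_support_iff.mp hNmem) (hinj _ (mem_pre.mp (hx N)).1 h2)
    · intro j' hj'
      rw [hwx, Finsupp.sum, map_sum]
      refine sum_eq_zero fun i hi => ?_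
      have := hmax i hi
      exact hpush0 _ _ (by omega)
  have hpAs := stab_pre hΩ (χ d) (hχl d) (hUds (d + 1)) hAs
  have hpBs := stab_pre hΩ (χ d) (hχl d) (hUds (d + 1)) hBs
  have hpre_le : ∀ A : AddSubgroup W, pre b (χ d) (Ud (d + 1)) A ≤ U := fun A w hw =>
    ((hUd _ w).mp (mem_pre.mp hw).1).1
  refine ⟨spE E' (pre b (χ d) (Ud (d + 1)) A), spE E' (pre b (χ d) (Ud (d + 1)) B),
    spE_le hUs.1 (hpre_le A), spE_le hUs.1 (hpre_le B), ?_, ?_, spE_stab hpAs, spE_stab hpBs, ?_⟩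
  · exact fun h0 => hA0 (le_bot_iff.mp (h0 ▸ le_spE))
  · exact fun h0 => hB0 (le_bot_iff.mp (h0 ▸ le_spE))
  rw [AddSubgroup.eq_bot_iff_forall]
  rintro y ⟨hyA, hyB⟩
  by_contra hy0
  obtain ⟨q, hq, hq0, hqy⟩ := spE_denom hpAs.1 hgen hyA
  obtain ⟨q', hq', hq'0, hq'y⟩ := spE_denom hpBs.1 hgen hyB
  have h1 : (q' * q).eval c • y ∈ SA c (pre b (χ d) (Ud (d + 1)) A) := by
    rw [eval_mul, mul_smul]
    exact SA_poly hpAs.1 q' hq' hqy
  have h2 : (q' * q).eval c • y ∈ SA c (pre b (χ d) (Ud (d + 1)) B) := by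
    rw [mul_comm, eval_mul, mul_smul]
    exact SA_poly hpBs.1 q hq hq'y
  have h3 : (q' * q).eval c • y ≠ 0 := by
    rw [eval_mul]
    exact smul_ne_zero (mul_ne_zero hq'0 hq0) hy0
  obtain ⟨j, hj1, hj2, hj3⟩ := htop A _ h1 h3
  obtain ⟨j', hj'1, hj'2, hj'3⟩ := htop B _ h2 h3
  rcases lt_trichotomy j j' with hlt | heq | hlt
  · exact hj'2 (hj3 j' hlt)
  · subst heq
    have h4 : push b (χ j) ((q' * q).eval c • y) ∈ A ⊓ B := ⟨hj1, hj'1⟩
    rw [hAB] at h4
    exact hj2 (by simpa using h4)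
  · exact hj2 (hj'3 j hlt)

end Pool.SD
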