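import Pool.Agent.Helper47.SD.NUDefs

/-! Common tools for blocks D1, D2 (helper24). -/

namespace Pool.SD

universe u

namespace D12

variable {k : Type u} [Field k] {W : Type u} [AddCommGroup W] [Module k W] {ι : Type u}

/-- an additive map acting on coordinates -/
noncomputable def push (b : Module.Basis ι k W) (ξ : k →+ k) : W →+ W where
  toFun w := b.repr.symm (Finsupp.mapRange ξ ξ.map_zero (b.repr w))
  map_zero' := by simp
  map_add' x y := by rw [map_add, Finsupp.mapRange_add ξ.map_add, map_add]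

theorem repr_push (b : Module.Basis ι k W) (ξ : k →+ k) (w : W) (i : ι) :
    b.repr (push b ξ w) i = ξ (b.repr w i) := by
  simp [push]

theorem repr_op (b : Module.Basis ι k W) (ω : W →ₗ[k] W) (w : W) (j : ι) (S : Finset ι)
    (hS : (b.repr w).support ⊆ S) :
    b.repr (ω w) j = ∑ i ∈ S, b.repr w i * b.repr (ω (b i)) j := by
  have h1 : w = ∑ i ∈ S, b.repr w i • b i := by
    conv_lhs => rw [← b.linearCombination_repr w]
    rw [Finsupp.linearCombination_apply, Finsupp.sum]
    refine Finset.sum_subset hS ?_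
    intro i _ hi
    rw [Finsupp.notMem_support_iff.mp hi, zero_smul]
  conv_lhs => rw [h1]
  rw [map_sum, map_sum, Finsupp.finsetSum_apply]
  refine Finset.sum_congr rfl fun i _ => ?_
  simp

theorem ext_repr (b : Module.Basis ι k W) {x y : W} (h : ∀ i, b.repr x i = b.repr y i) : x = y :=
  b.repr.injective (Finsupp.ext h)

theorem push_op (b : Module.Basis ι k W) {Ω : Set (W →ₗ[k] W)} {E : Subfield k}
    (hΩ : OpIn b Ω E) (ξ : k →+ k) (hξ : ∀ e ∈ E, ∀ x, ξ (e * x) = e * ξ x)
    {ω : W →ₗ[k] W} (hω : ω ∈ Ω) (w : W) : push b ξ (ω w) = ω (push b ξ w) := by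
  refine ext_repr b fun j => ?_
  rw [repr_push, repr_op b ω w j _ (Finset.Subset.refl _), map_sum,
    repr_op b ω (push b ξ w) j (b.repr w).support]
  · refine Finset.sum_congr rfl fun i _ => ?_
    rw [repr_push, mul_comm, hξ _ (hΩ ω hω i j), mul_comm]
  · intro i hi
    rw [Finsupp.mem_support_iff] at hi ⊢
    intro h0
    apply hi
    rw [repr_push, h0, map_zero]

theorem push_smul (b : Module.Basis ι k W) {E : Subfield k} (ξ : k →+ k)
    (hξ : ∀ e ∈ E, ∀ x, ξ (e * x) = e * ξ x) {e : k} (he : e ∈ E) (w : W) :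
    push b ξ (e • w) = e • push b ξ w := by
  refine ext_repr b fun j => ?_
  rw [repr_push, map_smul, map_smul, Finsupp.smul_apply, Finsupp.smul_apply, repr_push,
    smul_eq_mul, smul_eq_mul, hξ e he]

theorem exists_functional (E : Subfield k) {κ : Type*} [DecidableEq κ] (v : κ → k)
    (hv : LinearIndependent E v) (j : κ) :
    ∃ ξ : k →+ k, (∀ x, ξ x ∈ E) ∧ (∀ e ∈ E, ∀ x, ξ (e * x) = e * ξ x) ∧
      ∀ i, ξ (v i) = if i = j then 1 else 0 := by
  obtain ⟨g, hg⟩ := LinearMap.exists_extend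
    ((Finsupp.lapply j : (κ →₀ E) →ₗ[E] E).comp hv.repr)
  refine ⟨(E.subtype.toAddMonoidHom).comp g.toAddMonoidHom, ?_, ?_, ?_⟩
  · intro x
    exact (g x).2
  · intro e he x
    have : g ((⟨e, he⟩ : E) • x) = (⟨e, he⟩ : E) • g x := map_smul _ _ _
    have h2 := congrArg (E.subtype) this
    exact h2
  · intro i
    have h1 : g (v i) = (hv.repr ⟨v i, Submodule.subset_span ⟨i, rfl⟩⟩) j := by
      have := LinearMap.congr_fun hg ⟨v i, Submodule.subset_span ⟨i, rfl⟩⟩
      exact this
    have h2 : hv.repr ⟨v i, Submodule.subset_span ⟨i, rfl⟩⟩ = Finsupp.single i 1 :=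
      hv.repr_eq_single i _ rfl
    have h3 : g (v i) = if i = j then 1 else 0 := by
      rw [h1, h2, Finsupp.single_apply]
    change E.subtype (g (v i)) = _
    rw [h3]
    split_ifs <;> simp

end D12

end Pool.SD
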