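import Pool.Agent.Helper47.SD.D12Tool

/-! Block D2: `NU` passes to finite extensions of the field of constants (helper24). -/

namespace Pool.SD

universe u

namespace D12

variable {k : Type u} [Field k] {W : Type u} [AddCommGroup W] [Module k W] {ι : Type u}

/-- the largest `E'`-stable part of `X` -/
def core (E' : Subfield k) (X : AddSubgroup W) : AddSubgroup W where
  carrier := {w | ∀ x ∈ E', x • w ∈ X}
  zero_mem' := by intro x _; rw [smul_zero]; exact X.zero_mem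
  add_mem' := by
    intro a b ha hb x hx
    rw [smul_add]
    exact X.add_mem (ha x hx) (hb x hx)
  neg_mem' := by
    intro a ha x hx
    rw [smul_neg]
    exact X.neg_mem (ha x hx)

theorem core_le (E' : Subfield k) (X : AddSubgroup W) : core E' X ≤ X := by
  intro w hw
  have := hw 1 E'.one_mem
  rwa [one_smul] at this

theorem core_stab (E' : Subfield k) {Ω : Set (W →ₗ[k] W)} {E : Subfield k} {X : AddSubgroup W}
    (hX : Stab Ω E X) : Stab Ω E' (core E' X) := by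
  refine ⟨?_, ?_⟩
  · intro e he w hw x hx
    rw [smul_smul]
    exact hw _ (E'.mul_mem hx he)
  · intro ω hω w hw x hx
    rw [← map_smul]
    exact hX.2 ω hω _ (hw x hx)

theorem le_core (E' : Subfield k) {Ω : Set (W →ₗ[k] W)} {X N : AddSubgroup W}
    (hN : Stab Ω E' N) (h : N ≤ X) : N ≤ core E' X := by
  intro w hw x hx
  exact h (hN.1 x hx w hw)

theorem ne_bot_iff {X : AddSubgroup W} : X ≠ ⊥ ↔ ∃ x ∈ X, x ≠ 0 := by
  constructor
  · intro h
    by_contra hc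
    push Not at hc
    exact h ((AddSubgroup.eq_bot_iff_forall X).mpr hc)
  · rintro ⟨x, hx, h0⟩ h
    rw [h] at hx
    exact h0 (by simpa using hx)

theorem stab_inf {Ω : Set (W →ₗ[k] W)} {E : Subfield k} {X Y : AddSubgroup W}
    (hX : Stab Ω E X) (hY : Stab Ω E Y) : Stab Ω E (X ⊓ Y) :=
  ⟨fun e he w hw => ⟨hX.1 e he w hw.1, hY.1 e he w hw.2⟩,
    fun ω hω w hw => ⟨hX.2 ω hω w hw.1, hY.2 ω hω w hw.2⟩⟩

theorem stab_sup {Ω : Set (W →ₗ[k] W)} {E : Subfield k} {X Y : AddSubgroup W}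
    (hX : Stab Ω E X) (hY : Stab Ω E Y) : Stab Ω E (X ⊔ Y) := by
  refine ⟨fun e he w hw => ?_, fun ω hω w hw => ?_⟩
  · obtain ⟨x, hx, y, hy, rfl⟩ := AddSubgroup.mem_sup.mp hw
    rw [smul_add]
    exact AddSubgroup.add_mem_sup (hX.1 e he x hx) (hY.1 e he y hy)
  · obtain ⟨x, hx, y, hy, rfl⟩ := AddSubgroup.mem_sup.mp hw
    rw [map_add]
    exact AddSubgroup.add_mem_sup (hX.2 ω hω x hx) (hY.2 ω hω y hy)

theorem stab_mono {Ω : Set (W →ₗ[k] W)} {E E' : Subfield k} (h : E ≤ E') {X : AddSubgroup W}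
    (hX : Stab Ω E' X) : Stab Ω E X :=
  ⟨fun e he w hw => hX.1 e (h he) w hw, hX.2⟩

/-- multiplication by a scalar -/
def mulMap (c : k) (X : AddSubgroup W) : AddSubgroup W :=
  X.map (DistribSMul.toAddMonoidHom W c)

theorem mem_mulMap {c : k} {X : AddSubgroup W} {w : W} :
    w ∈ mulMap c X ↔ ∃ x ∈ X, c • x = w := by
  simp [mulMap]

theorem stab_mulMap {Ω : Set (W →ₗ[k] W)} {E : Subfield k} {X : AddSubgroup W} (c : k)
    (hX : Stab Ω E X) : Stab Ω E (mulMap c X) := by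
  refine ⟨fun e he w hw => ?_, fun ω hω w hw => ?_⟩
  · obtain ⟨x, hx, rfl⟩ := mem_mulMap.mp hw
    exact mem_mulMap.mpr ⟨e • x, hX.1 e he x hx, smul_comm _ _ _⟩
  · obtain ⟨x, hx, rfl⟩ := mem_mulMap.mp hw
    exact mem_mulMap.mpr ⟨ω x, hX.2 ω hω x hx, (map_smul _ _ _).symm⟩

/-- the preimage of `A` under `push b ξ`, inside `Y` -/
noncomputable def pre (b : Module.Basis ι k W) (ξ : k →+ k) (Y A : AddSubgroup W) : AddSubgroup W :=
  Y ⊓ A.comap (push b ξ)

theorem mem_pre {b : Module.Basis ι k W} {ξ : k →+ k} {Y A : AddSubgroup W} {w : W} :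
    w ∈ pre b ξ Y A ↔ w ∈ Y ∧ push b ξ w ∈ A := Iff.rfl

theorem stab_pre {b : Module.Basis ι k W} {Ω : Set (W →ₗ[k] W)} {E : Subfield k}
    (hΩ : OpIn b Ω E) (ξ : k →+ k) (hξ : ∀ e ∈ E, ∀ x, ξ (e * x) = e * ξ x)
    {Y A : AddSubgroup W} (hY : Stab Ω E Y) (hA : Stab Ω E A) : Stab Ω E (pre b ξ Y A) := by
  refine ⟨fun e he w hw => ⟨hY.1 e he w hw.1, ?_⟩, fun ω hω w hw => ⟨hY.2 ω hω w hw.1, ?_⟩⟩
  · change push b ξ (e • w) ∈ A
    rw [push_smul b ξ hξ he]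
    exact hA.1 e he _ hw.2
  · change push b ξ (ω w) ∈ A
    rw [push_op b hΩ ξ hξ hω]
    exact hA.2 ω hω _ hw.2

/-- the image of `Y` under `push b ξ` -/
theorem stab_map {b : Module.Basis ι k W} {Ω : Set (W →ₗ[k] W)} {E : Subfield k}
    (hΩ : OpIn b Ω E) (ξ : k →+ k) (hξ : ∀ e ∈ E, ∀ x, ξ (e * x) = e * ξ x)
    {Y : AddSubgroup W} (hY : Stab Ω E Y) : Stab Ω E (Y.map (push b ξ)) := by
  refine ⟨?_, ?_⟩
  · rintro e he _ ⟨w, hw, rfl⟩
    exact ⟨e • w, hY.1 e he w hw, push_smul b ξ hξ he w⟩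
  · rintro ω hω _ ⟨w, hw, rfl⟩
    exact ⟨ω w, hY.2 ω hω w hw, push_op b hΩ ξ hξ hω w⟩

/-- If `push b ξ` is injective on a nonzero stable `Y` then `Y` is not uniform over `E`. -/
theorem not_uniform_of_inj {b : Module.Basis ι k W} {Ω : Set (W →ₗ[k] W)} {E : Subfield k}
    (hΩ : OpIn b Ω E) (ξ : k →+ k) (hξ : ∀ e ∈ E, ∀ x, ξ (e * x) = e * ξ x)
    (hξE : ∀ x, ξ x ∈ E) (h : NU b Ω E) {Y : AddSubgroup W} (hY : Stab Ω E Y) (hY0 : Y ≠ ⊥)
    (hinj : ∀ w ∈ Y, push b ξ w = 0 → w = 0) :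
    ∃ A B : AddSubgroup W, A ≤ Y.map (push b ξ) ∧ B ≤ Y.map (push b ξ) ∧ Stab Ω E A ∧
      Stab Ω E B ∧ A ⊓ B = ⊥ ∧ pre b ξ Y A ≠ ⊥ ∧ pre b ξ Y B ≠ ⊥ ∧
      pre b ξ Y A ⊓ pre b ξ Y B = ⊥ := by
  obtain ⟨A, B, hA, hB, hA0, hB0, hAs, hBs, hAB⟩ := h (Y.map (push b ξ)) (by
    obtain ⟨y, hy, hy0⟩ := ne_bot_iff.mp hY0
    exact ne_bot_iff.mpr ⟨push b ξ y, ⟨y, hy, rfl⟩, fun h0 => hy0 (hinj y hy h0)⟩)
    (stab_map hΩ ξ hξ hY) (by
      rintro _ ⟨w, _, rfl⟩ i
      rw [repr_push]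
      exact hξE _)
  have key : ∀ A' : AddSubgroup W, A' ≤ Y.map (push b ξ) → A' ≠ ⊥ → pre b ξ Y A' ≠ ⊥ := by
    intro A' hA' hA'0
    obtain ⟨a, ha, ha0⟩ := ne_bot_iff.mp hA'0
    obtain ⟨y, hy, rfl⟩ := hA' ha
    refine ne_bot_iff.mpr ⟨y, ⟨hy, ha⟩, ?_⟩
    rintro rfl
    exact ha0 (map_zero _)
  refine ⟨A, B, hA, hB, hAs, hBs, hAB, key A hA hA0, key B hB hB0, ?_⟩
  rw [AddSubgroup.eq_bot_iff_forall]
  rintro w ⟨h1, h2⟩
  have h3 : push b ξ w ∈ A ⊓ B := ⟨h1.2, h2.2⟩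
  rw [hAB] at h3
  exact hinj w h1.1 (by simpa using h3)

end D12

open D12 in
theorem NU.finite {k : Type u} [Field k] {W : Type u} [AddCommGroup W] [Module k W] {ι : Type u}
    (b : Module.Basis ι k W) (Ω : Set (W →ₗ[k] W)) (E E' : Subfield k)
    (hEE' : E ≤ E') (hΩ : OpIn b Ω E) (n : ℕ) (lam : Fin n → k) (hlam : ∀ j, lam j ∈ E')
    (hspan : ∀ x ∈ E', ∃ e : Fin n → k, (∀ j, e j ∈ E) ∧ x = ∑ j, e j * lam j)
    (hind : ∀ e : Fin n → k, (∀ j, e j ∈ E) → ∑ j, e j * lam j = 0 → ∀ j, e j = 0)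
    (h : NU b Ω E) : NU b Ω E' := by
  classical
  intro U hU0 hUs hUE
  by_contra hcon
  -- uniformity of `U` over `E'`
  have hunif : ∀ A B : AddSubgroup W, A ≤ U → B ≤ U → A ≠ ⊥ → B ≠ ⊥ → Stab Ω E' A →
      Stab Ω E' B → A ⊓ B ≠ ⊥ := by
    intro A B hA hB hA0 hB0 hAs hBs hAB
    exact hcon ⟨A, B, hA, hB, hA0, hB0, hAs, hBs, hAB⟩
  -- membership in the core can be tested on `lam`
  have hcore : ∀ (X : AddSubgroup W), Stab Ω E X → ∀ w, (∀ j, lam j • w ∈ X) →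
      w ∈ core E' X := by
    intro X hX w hw x hx
    obtain ⟨e, he, rfl⟩ := hspan x hx
    rw [Finset.sum_smul]
    refine AddSubgroup.sum_mem _ fun j _ => ?_
    rw [mul_smul]
    exact hX.1 _ (he j) _ (hw j)
  -- Zorn
  obtain ⟨X, hXmax⟩ : ∃ X, Maximal (fun X : AddSubgroup W => X ≤ U ∧ Stab Ω E X ∧
      core E' X = ⊥) X := by
    refine zorn_le₀ _ ?_
    intro c hc hchain
    rcases c.eq_empty_or_nonempty with hce | hcne
    · refine ⟨⊥, ⟨bot_le, ⟨?_, ?_⟩, ?_⟩, ?_⟩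
      · intro e _ w hw
        rw [AddSubgroup.mem_bot] at hw ⊢
        rw [hw, smul_zero]
      · intro ω _ w hw
        rw [AddSubgroup.mem_bot] at hw ⊢
        rw [hw, map_zero]
      · exact le_bot_iff.mp (core_le E' ⊥)
      · rw [hce]; simp
    · have hdir : DirectedOn (· ≤ ·) c := hchain.directedOn
      have hmem : ∀ w, w ∈ sSup c ↔ ∃ Z ∈ c, w ∈ Z := fun w =>
        AddSubgroup.mem_sSup_of_directedOn hcne hdir
      refine ⟨sSup c, ⟨sSup_le fun Z hZ => (hc hZ).1, ⟨?_, ?_⟩, ?_⟩, fun Z hZ => le_sSup hZ⟩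
      · intro e he w hw
        obtain ⟨Z, hZ, hwZ⟩ := (hmem w).mp hw
        exact (hmem _).mpr ⟨Z, hZ, (hc hZ).2.1.1 e he w hwZ⟩
      · intro ω hω w hw
        obtain ⟨Z, hZ, hwZ⟩ := (hmem w).mp hw
        exact (hmem _).mpr ⟨Z, hZ, (hc hZ).2.1.2 ω hω w hwZ⟩
      · rw [AddSubgroup.eq_bot_iff_forall]
        intro w hw
        -- all `lam j • w` lie in one member of the chain
        have h1 : ∀ T : Finset (Fin n), ∃ Z ∈ c, ∀ j ∈ T, lam j • w ∈ Z := by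
          intro T
          induction T using Finset.induction_on with
          | empty =>
            obtain ⟨Z, hZ⟩ := hcne
            exact ⟨Z, hZ, by simp⟩
          | insert j T _ ih =>
            obtain ⟨Z, hZ, hZT⟩ := ih
            obtain ⟨Z', hZ', hjZ'⟩ := (hmem _).mp (hw (lam j) (hlam j))
            obtain ⟨Z'', hZ'', h1, h2⟩ := hdir Z hZ Z' hZ'
            refine ⟨Z'', hZ'', fun i hi => ?_⟩
            rcases Finset.mem_insert.mp hi with rfl | hi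
            · exact h2 hjZ'
            · exact h1 (hZT i hi)
        obtain ⟨Z, hZ, hZw⟩ := h1 Finset.univ
        have h2 := hcore Z (hc hZ).2.1 w (fun j => hZw j (Finset.mem_univ j))
        rw [(hc hZ).2.2] at h2
        simpa using h2
  obtain ⟨⟨hXU, hXs, hXcore⟩, hXm⟩ := hXmax
  -- the subgroups `Y T`
  have hYdef : ∀ T : Finset (Fin n), ∃ Y : AddSubgroup W, ∀ w, w ∈ Y ↔ w ∈ U ∧
      ∀ j ∈ T, lam j • w ∈ X := by
    intro T
    refine ⟨{ carrier := {w | w ∈ U ∧ ∀ j ∈ T, lam j • w ∈ X}, zero_mem' := ?_, add_mem' := ?_,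
              neg_mem' := ?_ }, fun w => Iff.rfl⟩
    · intro a b ha hb
      refine ⟨U.add_mem ha.1 hb.1, fun j hj => ?_⟩
      rw [smul_add]
      exact X.add_mem (ha.2 j hj) (hb.2 j hj)
    · refine ⟨U.zero_mem, fun j _ => ?_⟩
      rw [smul_zero]
      exact X.zero_mem
    · intro a ha
      refine ⟨U.neg_mem ha.1, fun j hj => ?_⟩
      rw [smul_neg]
      exact X.neg_mem (ha.2 j hj)
  choose Y hY using hYdef
  have hYs : ∀ T, Stab Ω E (Y T) := by
    intro T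
    refine ⟨fun e he w hw => ?_, fun ω hω w hw => ?_⟩
    · obtain ⟨h1, h2⟩ := (hY T w).mp hw
      refine (hY T _).mpr ⟨hUs.1 e (hEE' he) w h1, fun j hj => ?_⟩
      rw [smul_comm]
      exact hXs.1 e he _ (h2 j hj)
    · obtain ⟨h1, h2⟩ := (hY T w).mp hw
      refine (hY T _).mpr ⟨hUs.2 ω hω w h1, fun j hj => ?_⟩
      rw [← map_smul]
      exact hXs.2 ω hω _ (h2 j hj)
  have hYuniv : Y Finset.univ = ⊥ := by
    rw [AddSubgroup.eq_bot_iff_forall]
    intro w hw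
    have := hcore X hXs w (fun j => ((hY _ w).mp hw).2 j (Finset.mem_univ j))
    rw [hXcore] at this
    simpa using this
  have hYempty : Y ∅ ≠ ⊥ := by
    obtain ⟨u, hu, hu0⟩ := ne_bot_iff.mp hU0
    exact ne_bot_iff.mpr ⟨u, (hY ∅ u).mpr ⟨hu, by simp⟩, hu0⟩
  -- choose `T` maximal
  obtain ⟨T, j₀, hT, hTj⟩ : ∃ (T : Finset (Fin n)) (j₀ : Fin n), Y T ≠ ⊥ ∧
      Y (insert j₀ T) = ⊥ := by
    by_contra hno
    push Not at hno
    have : ∀ T : Finset (Fin n), Y T ≠ ⊥ := by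
      intro T
      induction T using Finset.induction_on with
      | empty => exact hYempty
      | insert j T _ ih => exact hno T j ih
    exact this _ hYuniv
  have hkey : ∀ w ∈ Y T, lam j₀ • w ∈ X → w = 0 := by
    intro w hw hwX
    have : w ∈ Y (insert j₀ T) := by
      refine (hY _ w).mpr ⟨((hY T w).mp hw).1, fun j hj => ?_⟩
      rcases Finset.mem_insert.mp hj with rfl | hj
      · exact hwX
      · exact ((hY T w).mp hw).2 j hj
    rw [hTj] at this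
    simpa using this
  -- `Y T` is uniform over `E`
  have hYunif : ∀ C D : AddSubgroup W, C ≤ Y T → D ≤ Y T → Stab Ω E C → Stab Ω E D →
      C ≠ ⊥ → D ≠ ⊥ → C ⊓ D ≠ ⊥ := by
    intro C D hC hD hCs hDs hC0 hD0
    have hbig : ∀ C : AddSubgroup W, C ≤ Y T → Stab Ω E C → C ≠ ⊥ →
        X ⊔ mulMap (lam j₀) C ≤ U ∧ core E' (X ⊔ mulMap (lam j₀) C) ≠ ⊥ := by
      intro C hC hCs hC0
      have h1 : X ⊔ mulMap (lam j₀) C ≤ U := by
        refine sup_le hXU ?_
        intro w hw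
        obtain ⟨x, hx, rfl⟩ := mem_mulMap.mp hw
        exact hUs.1 _ (hlam j₀) _ ((hY T x).mp (hC hx)).1
      refine ⟨h1, fun h2 => ?_⟩
      have h3 := hXm ⟨h1, stab_sup hXs (stab_mulMap _ hCs), h2⟩ le_sup_left
      obtain ⟨x, hx, hx0⟩ := ne_bot_iff.mp hC0
      apply hx0
      refine hkey x (hC hx) (h3 ?_)
      exact (le_sup_right : mulMap (lam j₀) C ≤ _) (mem_mulMap.mpr ⟨x, hx, rfl⟩)
    obtain ⟨hC1, hC2⟩ := hbig C hC hCs hC0
    obtain ⟨hD1, hD2⟩ := hbig D hD hDs hD0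
    have hCst := core_stab E' (stab_sup hXs (stab_mulMap (lam j₀) hCs))
    have hDst := core_stab E' (stab_sup hXs (stab_mulMap (lam j₀) hDs))
    have h3 := hunif _ _ ((core_le E' _).trans hC1) ((core_le E' _).trans hD1) hC2 hD2 hCst hDst
    -- the intersection is not inside `X`
    obtain ⟨w, hw, hwX⟩ : ∃ w ∈ core E' (X ⊔ mulMap (lam j₀) C) ⊓
        core E' (X ⊔ mulMap (lam j₀) D), w ∉ X := by
      by_contra hno
      push Not at hno
      have h4 := le_core E' (stab_inf hCst hDst) (X := X) hno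
      rw [hXcore] at h4
      exact h3 (le_bot_iff.mp h4)
    obtain ⟨x, hx, y, hy, hxy⟩ := AddSubgroup.mem_sup.mp (core_le E' _ hw.1)
    obtain ⟨c, hc, rfl⟩ := mem_mulMap.mp hy
    obtain ⟨x', hx', y', hy', hxy'⟩ := AddSubgroup.mem_sup.mp (core_le E' _ hw.2)
    obtain ⟨d, hd, rfl⟩ := mem_mulMap.mp hy'
    have h5 : c - d = 0 := by
      refine hkey _ ((Y T).sub_mem (hC hc) (hD hd)) ?_
      rw [smul_sub]
      have : lam j₀ • c - lam j₀ • d = x' - x := by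
        have : x + lam j₀ • c = x' + lam j₀ • d := hxy.trans hxy'.symm
        rw [sub_eq_sub_iff_add_eq_add, add_comm, this]
      rw [this]
      exact X.sub_mem hx' hx
    have h6 : c = d := sub_eq_zero.mp h5
    refine ne_bot_iff.mpr ⟨c, ⟨hc, h6 ▸ hd⟩, ?_⟩
    rintro rfl
    rw [smul_zero, add_zero] at hxy
    exact hwX (hxy ▸ hx)
  -- functionals
  have hli : LinearIndependent E lam := by
    rw [Fintype.linearIndependent_iff]
    intro g hg i
    have := hind (fun j => (g j : k)) (fun j => (g j).2) hg i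
    exact Subtype.ext this
  choose ξ hξE hξl hξv using fun j => exists_functional E lam hli j
  -- the kernels
  have hker : ∃ j, ∀ w ∈ Y T, push b (ξ j) w = 0 → w = 0 := by
    by_contra hno
    push Not at hno
    have hbotstab : Stab Ω E (⊥ : AddSubgroup W) := by
      refine ⟨?_, ?_⟩
      · intro e _ w hw
        rw [AddSubgroup.mem_bot] at hw ⊢
        rw [hw, smul_zero]
      · intro ω _ w hw
        rw [AddSubgroup.mem_bot] at hw ⊢
        rw [hw, map_zero]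
    have hall : ∀ S : Finset (Fin n), ∃ K : AddSubgroup W, K ≤ Y T ∧ Stab Ω E K ∧ K ≠ ⊥ ∧
        ∀ j ∈ S, ∀ w ∈ K, push b (ξ j) w = 0 := by
      intro S
      induction S using Finset.induction_on with
      | empty => exact ⟨Y T, le_rfl, hYs T, hT, by simp⟩
      | insert j S _ ih =>
        obtain ⟨K, hK, hKs, hK0, hKS⟩ := ih
        have hprestab := stab_pre hΩ (ξ j) (hξl j) (hYs T) hbotstab
        have hpre0 : pre b (ξ j) (Y T) ⊥ ≠ ⊥ := by
          obtain ⟨w, hw, hw1, hw0⟩ := hno j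
          exact ne_bot_iff.mpr ⟨w, mem_pre.mpr ⟨hw, by rw [hw1]; exact AddSubgroup.zero_mem _⟩, hw0⟩
        refine ⟨K ⊓ pre b (ξ j) (Y T) ⊥, inf_le_left.trans hK, stab_inf hKs hprestab,
          hYunif _ _ hK inf_le_left hKs hprestab hK0 hpre0, ?_⟩
        intro i hi w hw
        rcases Finset.mem_insert.mp hi with rfl | hi
        · simpa using (mem_pre.mp hw.2).2
        · exact hKS i hi w hw.1
    obtain ⟨K, hK, _, hK0, hKall⟩ := hall Finset.univ
    obtain ⟨w, hw, hw0⟩ := ne_bot_iff.mp hK0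
    apply hw0
    refine ext_repr b fun i => ?_
    obtain ⟨e, he, hx⟩ := hspan _ (hUE w ((hY T w).mp (hK hw)).1 i)
    rw [map_zero, Finsupp.zero_apply, hx]
    refine Finset.sum_eq_zero fun j _ => ?_
    have h1 : ξ j (b.repr w i) = 0 := by
      rw [← repr_push, hKall j (Finset.mem_univ j) w hw, map_zero, Finsupp.zero_apply]
    have h2 : ξ j (b.repr w i) = e j := by
      rw [hx, map_sum, Finset.sum_eq_single j]
      · rw [hξl j _ (he j), hξv, if_pos rfl, mul_one]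
      · intro i' _ hi'
        rw [hξl j _ (he i'), hξv, if_neg hi', mul_zero]
      · intro hj; exact absurd (Finset.mem_univ j) hj
    rw [← h2, h1, zero_mul]
  obtain ⟨j, hj⟩ := hker
  obtain ⟨A, B, _, _, hAs, hBs, _, hA0, hB0, hAB⟩ :=
    not_uniform_of_inj hΩ (ξ j) (hξl j) (hξE j) h (hYs T) hT hj
  exact hYunif _ _ inf_le_left inf_le_left (stab_pre hΩ (ξ j) (hξl j) (hYs T) hAs)
    (stab_pre hΩ (ξ j) (hξl j) (hYs T) hBs) hA0 hB0 hAB

end Pool.SD
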