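import Mathlib

/-!
# MP_823891_al: width undefined implies a superdecomposable pure-injective module,
for algebras of countable dimension over an arbitrary field.  Definitions.

Modules in the sense of the problem are RIGHT modules, i.e. `Module Rᵐᵒᵖ M`.
-/

open scoped TensorProduct

namespace Pool.SD

universe u v

/-! ## pp conditions in one free variable (right modules) -/

/-- The pp condition `∃ y₁ … y_l, ⋀ⱼ x·aⱼ = ∑ᵢ yᵢ·b i j` in the free variable `x`. -/
structure PP (R : Type u) where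
  l : ℕ
  m : ℕ
  a : Fin m → R
  b : Fin l → Fin m → R

/-- The element `x` of the right module `M` satisfies `φ`. -/
def PP.Sat {R : Type u} [Ring R] (φ : PP R) (M : Type v) [AddCommGroup M] [Module Rᵐᵒᵖ M]
    (x : M) : Prop :=
  ∃ y : Fin φ.l → M, ∀ j, MulOpposite.op (φ.a j) • x = ∑ i, MulOpposite.op (φ.b i j) • y i

/-- `φ ≤ ψ` : every right module `M` satisfies `φ(M) ⊆ ψ(M)`. -/
def PP.Le {R : Type u} [Ring R] (φ ψ : PP R) : Prop :=
  ∀ (M : Type u) [AddCommGroup M] [Module Rᵐᵒᵖ M] (x : M), φ.Sat M x → ψ.Sat M x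

/-- `φ < ψ`. -/
def PP.Lt {R : Type u} [Ring R] (φ ψ : PP R) : Prop := PP.Le φ ψ ∧ ¬ PP.Le ψ φ

/-- `χ ≤ φ + ψ` : every right module `M` satisfies `χ(M) ⊆ φ(M) + ψ(M)`. -/
def PP.LeSum {R : Type u} [Ring R] (χ φ ψ : PP R) : Prop :=
  ∀ (M : Type u) [AddCommGroup M] [Module Rᵐᵒᵖ M] (x : M), χ.Sat M x →
    ∃ x₁ x₂ : M, x = x₁ + x₂ ∧ φ.Sat M x₁ ∧ ψ.Sat M x₂

/-- `φ ∧ ψ ≤ χ` : every right module `M` satisfies `φ(M) ∩ ψ(M) ⊆ χ(M)`. -/
def PP.InfLe {R : Type u} [Ring R] (φ ψ χ : PP R) : Prop :=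
  ∀ (M : Type u) [AddCommGroup M] [Module Rᵐᵒᵖ M] (x : M), φ.Sat M x → ψ.Sat M x → χ.Sat M x

/-- `P` is a wide subposet of `pp_R`: for all `φ > ψ` in `P` there are incomparable `θ₁, θ₂ ∈ P`
strictly between, and `θ₁₁, θ₁₂, θ₂₁, θ₂₂ ∈ P` with
`θ₁ + θ₂ ≥ θᵢ₁ > θᵢ > θᵢ₂ ≥ θ₁ ∧ θ₂`. -/
def Wide {R : Type u} [Ring R] (P : Set (PP R)) : Prop :=
  ∀ φ ∈ P, ∀ ψ ∈ P, PP.Lt ψ φ →
    ∃ θ₁ ∈ P, ∃ θ₂ ∈ P, ¬ PP.Le θ₁ θ₂ ∧ ¬ PP.Le θ₂ θ₁ ∧
      PP.Lt ψ θ₁ ∧ PP.Lt θ₁ φ ∧ PP.Lt ψ θ₂ ∧ PP.Lt θ₂ φ ∧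
      ∃ θ₁₁ ∈ P, ∃ θ₁₂ ∈ P, ∃ θ₂₁ ∈ P, ∃ θ₂₂ ∈ P,
        PP.LeSum θ₁₁ θ₁ θ₂ ∧ PP.Lt θ₁ θ₁₁ ∧ PP.Lt θ₁₂ θ₁ ∧ PP.InfLe θ₁ θ₂ θ₁₂ ∧
        PP.LeSum θ₂₁ θ₁ θ₂ ∧ PP.Lt θ₂ θ₂₁ ∧ PP.Lt θ₂₂ θ₂ ∧ PP.InfLe θ₁ θ₂ θ₂₂

/-- `w(pp_R) = ∞` : the lattice of pp conditions in one variable contains a wide subposet
(with at least one pair `ψ < φ`). -/
def WidthUndefined (R : Type u) [Ring R] : Prop :=
  ∃ P : Set (PP R), Wide P ∧ ∃ φ ∈ P, ∃ ψ ∈ P, PP.Lt ψ φ

/-! ## pure-injective and superdecomposable right modules -/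

/-- A pure embedding of right `R`-modules: an injective linear map such that every finite system
of linear equations `∑ᵢ yᵢ·b i j = cⱼ` with constants in `A` which is solvable in `B` is solvable
in `A`. -/
def IsPureEmb {R : Type u} [Ring R] {A B : Type v} [AddCommGroup A] [AddCommGroup B]
    [Module Rᵐᵒᵖ A] [Module Rᵐᵒᵖ B] (f : A →ₗ[Rᵐᵒᵖ] B) : Prop :=
  Function.Injective f ∧
    ∀ (l m : ℕ) (b : Fin l → Fin m → R) (c : Fin m → A),
      (∃ y : Fin l → B, ∀ j, f (c j) = ∑ i, MulOpposite.op (b i j) • y i) →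
      ∃ y : Fin l → A, ∀ j, c j = ∑ i, MulOpposite.op (b i j) • y i

/-- The right `R`-module `N` is pure-injective: injective with respect to pure embeddings. -/
def PureInjective (R : Type u) [Ring R] (N : Type v) [AddCommGroup N] [Module Rᵐᵒᵖ N] : Prop :=
  ∀ (A B : Type v) [AddCommGroup A] [AddCommGroup B] [Module Rᵐᵒᵖ A] [Module Rᵐᵒᵖ B]
    (f : A →ₗ[Rᵐᵒᵖ] B), IsPureEmb f →
    ∀ g : A →ₗ[Rᵐᵒᵖ] N, ∃ h : B →ₗ[Rᵐᵒᵖ] N, ∀ a, h (f a) = g a

/-- A submodule which is indecomposable as a module. -/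
def IndecSub {S : Type u} [Ring S] {N : Type v} [AddCommGroup N] [Module S N]
    (U : Submodule S N) : Prop :=
  U ≠ ⊥ ∧ ∀ A B : Submodule S N, A ⊔ B = U → A ⊓ B = ⊥ → A = ⊥ ∨ B = ⊥

/-- The right `R`-module `N` is superdecomposable: it is nonzero and has no indecomposable direct
summand. -/
def Superdecomposable (R : Type u) [Ring R] (N : Type v) [AddCommGroup N] [Module Rᵐᵒᵖ N] : Prop :=
  Nontrivial N ∧ ∀ U U' : Submodule Rᵐᵒᵖ N, IsCompl U U' → ¬ IndecSub U

/-! ## auxiliary definitions -/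

/-- `M` has no uniform submodule: every nonzero submodule contains two nonzero submodules with
zero intersection. -/
def NoUniform (S : Type u) (M : Type v) [Ring S] [AddCommGroup M] [Module S M] : Prop :=
  ∀ W : Submodule S M, W ≠ ⊥ →
    ∃ A B : Submodule S M, A ≤ W ∧ B ≤ W ∧ A ≠ ⊥ ∧ B ≠ ⊥ ∧ A ⊓ B = ⊥

/-- conjunction of pp conditions -/
def PP.inf {R : Type u} [Ring R] (φ ψ : PP R) : PP R where
  l := φ.l + ψ.l
  m := φ.m + ψ.m
  a := Fin.append φ.a ψ.a
  b := Fin.append (fun i => Fin.append (φ.b i) (fun _ => 0))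
        (fun i => Fin.append (fun _ => 0) (ψ.b i))

/-- sum of pp conditions: `∃ z, φ(x - z) ∧ ψ(z)`; the variable `z` comes first. -/
def PP.sup {R : Type u} [Ring R] (φ ψ : PP R) : PP R where
  l := 1 + (φ.l + ψ.l)
  m := φ.m + ψ.m
  a := Fin.append φ.a (fun _ => 0)
  b := Fin.append (fun _ => Fin.append φ.a (fun j => - ψ.a j))
        (Fin.append (fun i => Fin.append (φ.b i) (fun _ => 0))
          (fun i => Fin.append (fun _ => 0) (ψ.b i)))

/-- A finite presentation of a left `R`-module: `m` generators, `l` relations (the rows of `b`). -/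
structure Pres (R : Type u) where
  l : ℕ
  m : ℕ
  b : Fin l → Fin m → R

/-- The finitely presented left `R`-module. -/
abbrev Pres.X {R : Type u} [Ring R] (B : Pres R) : Type u :=
  (Fin B.m → R) ⧸ Submodule.span R (Set.range B.b)

/-- class of a row vector in `X B` -/
abbrev Pres.cls {R : Type u} [Ring R] (B : Pres R) (c : Fin B.m → R) : B.X :=
  Submodule.Quotient.mk c

/-- the pp condition of the element with coordinates `c` of `X B` (it says `x ⊗ [c] = 0`) -/
def Pres.pp {R : Type u} (B : Pres R) (c : Fin B.m → R) : PP R := ⟨B.l, B.m, c, B.b⟩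

/-- the presentation underlying a pp condition -/
def PP.pres {R : Type u} (φ : PP R) : Pres R := ⟨φ.l, φ.m, φ.b⟩

/-- An SD filter of pp conditions. -/
structure IsSDFilter {R : Type u} [Ring R] (P : Set (PP R)) : Prop where
  nonempty : P.Nonempty
  proper : ∃ ψ, ψ ∉ P
  up : ∀ φ ∈ P, ∀ ψ, PP.Le φ ψ → ψ ∈ P
  inf : ∀ φ ∈ P, ∀ ψ ∈ P, φ.inf ψ ∈ P
  split : ∀ ψ, ψ ∉ P → ∃ ψ₁ ψ₂ : PP R, PP.Le ψ ψ₁ ∧ PP.Le ψ ψ₂ ∧ ψ₁ ∉ P ∧ ψ₂ ∉ P ∧
    ∀ φ ∈ P, (φ.inf ψ₁).sup (φ.inf ψ₂) ∈ P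

/-- A post-fixed family of intervals: a family of pairs `u < v` such that every pair in the family
contains `θ₁, θ₂` with `(θ₁ ⊓ θ₂, θ₁)` and `(θ₁ ⊓ θ₂, θ₂)` in the family. -/
def PostFixed {L : Type u} [Lattice L] (S : L → L → Prop) : Prop :=
  ∀ u v, S u v → u < v ∧ ∃ θ₁ θ₂, u ≤ θ₁ ∧ θ₁ ≤ v ∧ u ≤ θ₂ ∧ θ₂ ≤ v ∧
    S (θ₁ ⊓ θ₂) θ₁ ∧ S (θ₁ ⊓ θ₂) θ₂

/-- the same for pp conditions -/
def PostFixedPP {R : Type u} [Ring R] (S : PP R → PP R → Prop) : Prop :=
  ∀ ψ φ, S ψ φ → PP.Lt ψ φ ∧ ∃ θ₁ θ₂ : PP R, PP.Le ψ θ₁ ∧ PP.Le θ₁ φ ∧ PP.Le ψ θ₂ ∧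
    PP.Le θ₂ φ ∧ S (θ₁.inf θ₂) θ₁ ∧ S (θ₁.inf θ₂) θ₂

/-! ### the direct sum of all finitely presented left modules -/

/-- `G₀ A`: the direct sum of all finitely presented left `A`-modules `X B`. -/
def G₀ (A : Type u) [Ring A] : Type u := Π₀ B : Pres A, B.X

section G₀

variable (A : Type u) [Ring A]

instance : AddCommGroup (G₀ A) := inferInstanceAs (AddCommGroup (Π₀ B : Pres A, B.X))

instance : Module A (G₀ A) := inferInstanceAs (Module A (Π₀ B : Pres A, B.X))

instance (K : Type u) [Field K] [Algebra K A] : Module K (G₀ A) :=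
  inferInstanceAs (Module K (Π₀ B : Pres A, B.X))

instance (K : Type u) [Field K] [Algebra K A] : SMulCommClass A K (G₀ A) :=
  inferInstanceAs (SMulCommClass A K (Π₀ B : Pres A, B.X))

instance (K : Type u) [Field K] [Algebra K A] : IsScalarTower K A (G₀ A) :=
  inferInstanceAs (IsScalarTower K A (Π₀ B : Pres A, B.X))

variable {A}

open Classical in
/-- inclusion of the summand `X B` -/
noncomputable def G₀.of (B : Pres A) : B.X →ₗ[A] G₀ A :=
  (DFinsupp.lsingle B : B.X →ₗ[A] Π₀ B : Pres A, B.X)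

/-- projection to the summand `X B` -/
def G₀.pr (B : Pres A) : G₀ A →ₗ[A] B.X :=
  (DFinsupp.lapply B : (Π₀ B : Pres A, B.X) →ₗ[A] B.X)

theorem G₀.pr_of (B : Pres A) (x : B.X) : G₀.pr B (G₀.of B x) = x := by
  classical
  change (DFinsupp.single B x : Π₀ B : Pres A, B.X) B = x
  simp

theorem G₀.pr_of_ne {B B' : Pres A} (h : B ≠ B') (x : B.X) : G₀.pr B' (G₀.of B x) = 0 := by
  classical
  change (DFinsupp.single B x : Π₀ B : Pres A, B.X) B' = 0
  exact DFinsupp.single_eq_of_ne (Ne.symm h)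

theorem G₀.ext {g g' : G₀ A} (h : ∀ B : Pres A, G₀.pr B g = G₀.pr B g') : g = g' :=
  DFinsupp.ext h

theorem G₀.exists_sum (g : G₀ A) : ∃ F : Finset (Pres A), ∀ F' : Finset (Pres A), F ⊆ F' →
    g = ∑ B ∈ F', G₀.of B (G₀.pr B g) := by
  classical
  refine ⟨DFinsupp.support (show (Π₀ B : Pres A, B.X) from g), fun F' hF => ?_⟩
  apply G₀.ext
  intro B
  rw [map_sum]
  by_cases hB : B ∈ F'
  · rw [Finset.sum_eq_single B]
    · rw [G₀.pr_of]
    · intro B' _ hne
      exact G₀.pr_of_ne hne _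
    · intro h
      exact absurd hB h
  · rw [Finset.sum_eq_zero]
    · have : B ∉ DFinsupp.support (show (Π₀ B : Pres A, B.X) from g) := fun h => hB (hF h)
      have h2 : (show (Π₀ B : Pres A, B.X) from g) B = 0 := by simpa using this
      exact h2
    · intro B' hB'
      refine G₀.pr_of_ne ?_ _
      rintro rfl
      exact hB hB'

end G₀

/-- its endomorphism ring; `G₀ A` is a left module over it. -/
abbrev S₀ (A : Type u) [Ring A] : Type u := Module.End A (G₀ A)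

/-! ### base change -/

section BC

variable (K k : Type u) [Field K] [Field k] [Algebra K k]

/-- base change of a `K`-vector space, as a type synonym of `k ⊗[K] V`. -/
def BC (V : Type u) [AddCommGroup V] [Module K V] : Type u := k ⊗[K] V

variable (V : Type u) [AddCommGroup V] [Module K V]

noncomputable instance : AddCommGroup (BC K k V) := inferInstanceAs (AddCommGroup (k ⊗[K] V))
noncomputable instance : Module k (BC K k V) := inferInstanceAs (Module k (k ⊗[K] V))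
noncomputable instance : Module K (BC K k V) := inferInstanceAs (Module K (k ⊗[K] V))
instance : IsScalarTower K k (BC K k V) := inferInstanceAs (IsScalarTower K k (k ⊗[K] V))

/-- pure tensors -/
def BC.tm (t : k) (v : V) : BC K k V := t ⊗ₜ[K] v

variable {V}
variable (T : Type u) [Ring T] [Algebra K T] [Module T V] [IsScalarTower K T V]

/-- the ring homomorphism giving the action of `k ⊗[K] T` on `k ⊗[K] V` -/
noncomputable def bcHom : (k ⊗[K] T) →ₐ[K] Module.End K (k ⊗[K] V) :=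
  Algebra.TensorProduct.lift (Algebra.lsmul K K (k ⊗[K] V))
    ({ toFun := fun t => LinearMap.lTensor k (Algebra.lsmul K K V t)
       map_one' := by ext; simp
       map_mul' := fun s t => by ext; simp
       map_zero' := by ext; simp
       map_add' := fun s t => by ext; simp [TensorProduct.tmul_add]
       commutes' := fun r => by
        ext; simp } :
      T →ₐ[K] Module.End K (k ⊗[K] V))
    (fun x y => by
      ext
      simp [TensorProduct.smul_tmul'])

noncomputable instance : Module (k ⊗[K] T) (BC K k V) :=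
  Module.compHom (k ⊗[K] V) (bcHom K k (V := V) T).toRingHom

end BC

/-! ### the module `Hom_S(G, H)` -/

section Nmod

/-- `Hom_S(G, H)`, a right `R`-module when `G` is a left `R`-module and a left `S`-module with
commuting actions. -/
def Nmod (R S G H : Type u) [Ring R] [Ring S] [AddCommGroup G] [Module R G] [Module S G]
    [SMulCommClass R S G] [AddCommGroup H] [Module S H] : Type u := G →ₗ[S] H

variable (R S G H : Type u) [Ring R] [Ring S] [AddCommGroup G] [Module R G] [Module S G]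
    [SMulCommClass R S G] [AddCommGroup H] [Module S H]

instance : AddCommGroup (Nmod R S G H) := inferInstanceAs (AddCommGroup (G →ₗ[S] H))

instance : FunLike (Nmod R S G H) G H := inferInstanceAs (FunLike (G →ₗ[S] H) G H)

instance : LinearMapClass (Nmod R S G H) S G H :=
  inferInstanceAs (LinearMapClass (G →ₗ[S] H) S G H)

variable {R S G H}

@[ext] theorem Nmod.ext {f g : Nmod R S G H} (h : ∀ x, f x = g x) : f = g :=
  LinearMap.ext h

/-- view an `S`-linear map as an element of `Nmod` -/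
def Nmod.of (R : Type u) [Ring R] [Module R G] [SMulCommClass R S G] (f : G →ₗ[S] H) :
    Nmod R S G H := f

@[simp] theorem Nmod.of_apply (f : G →ₗ[S] H) (x : G) : Nmod.of R f x = f x := rfl
@[simp] theorem Nmod.zero_apply (x : G) : (0 : Nmod R S G H) x = 0 := rfl
@[simp] theorem Nmod.add_apply (f g : Nmod R S G H) (x : G) : (f + g) x = f x + g x := rfl
@[simp] theorem Nmod.neg_apply (f : Nmod R S G H) (x : G) : (-f) x = -(f x) := rfl
@[simp] theorem Nmod.sub_apply (f g : Nmod R S G H) (x : G) : (f - g) x = f x - g x := rfl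

instance : Module Rᵐᵒᵖ (Nmod R S G H) where
  smul r n := Nmod.of R ((show G →ₗ[S] H from n).comp (DistribSMul.toLinearMap S G r.unop))
  one_smul n := by
    apply Nmod.ext; intro x
    change n ((1 : R) • x) = n x
    rw [one_smul]
  mul_smul r s n := by
    apply Nmod.ext; intro x
    change n ((s.unop * r.unop : R) • x) = n (s.unop • (r.unop • x))
    rw [mul_smul]
  smul_zero r := rfl
  smul_add r f g := rfl
  add_smul r s n := by
    apply Nmod.ext; intro x
    change n ((r.unop + s.unop : R) • x) = n (r.unop • x) + n (s.unop • x)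
    rw [add_smul, map_add]
  zero_smul n := by
    apply Nmod.ext; intro x
    change n ((0 : R) • x) = 0
    rw [zero_smul, map_zero]

@[simp] theorem Nmod.op_smul_apply (r : R) (n : Nmod R S G H) (x : G) :
    (MulOpposite.op r • n) x = n (r • x) := rfl

@[simp] theorem Nmod.smul_apply (r : Rᵐᵒᵖ) (n : Nmod R S G H) (x : G) :
    (r • n) x = n (r.unop • x) := rfl

end Nmod

/-- Local data of the bimodule `G`: objects `B` with idempotents `e B ∈ S`, generators
`z B j` of `e B • G` over `R` and relations `b B i j` between them. -/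
structure LocalData (R S G : Type u) [Ring R] [Ring S] [AddCommGroup G] [Module R G] [Module S G]
    where
  ι : Type u
  e : ι → S
  l : ι → ℕ
  m : ι → ℕ
  z : ∀ B, Fin (m B) → G
  b : ∀ B, Fin (l B) → Fin (m B) → R
  e_z : ∀ B j, e B • z B j = z B j
  faithful : ∀ B (s : S), (∀ j, s • z B j = 0) → s * e B = 0
  hom : ∀ B (g : Fin (m B) → G), (∀ i, ∑ j, b B i j • g j = 0) → ∃ s : S, ∀ j, g j = s • z B j
  gen : ∀ B (g : G), ∃ c : Fin (m B) → R, e B • g = ∑ j, c j • z B j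
  fin : ∀ g : G, ∃ F : Finset ι, g = ∑ B ∈ F, e B • g
  rel : ∀ B i, ∑ j, b B i j • z B j = 0

end Pool.SD
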