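import Pool.Agent.Helper47.SD.Basic

namespace Pool.SD

universe u

section NU

variable {k : Type u} [Field k] {W : Type u} [AddCommGroup W] [Module k W] {ι : Type u}

/-- `U` is an `E`-subspace stable under the operators in `Ω`. -/
def Stab (Ω : Set (W →ₗ[k] W)) (E : Subfield k) (U : AddSubgroup W) : Prop :=
  (∀ e ∈ E, ∀ w ∈ U, e • w ∈ U) ∧ ∀ ω ∈ Ω, ∀ w ∈ U, ω w ∈ U

/-- all elements of `U` have coordinates in `E` -/
def InE (b : Module.Basis ι k W) (E : Subfield k) (U : AddSubgroup W) : Prop :=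
  ∀ w ∈ U, ∀ i, b.repr w i ∈ E

/-- no uniform `Ω`-stable `E`-subspace among the vectors with coordinates in `E` -/
def NU (b : Module.Basis ι k W) (Ω : Set (W →ₗ[k] W)) (E : Subfield k) : Prop :=
  ∀ U : AddSubgroup W, U ≠ ⊥ → Stab Ω E U → InE b E U →
    ∃ A B : AddSubgroup W, A ≤ U ∧ B ≤ U ∧ A ≠ ⊥ ∧ B ≠ ⊥ ∧ Stab Ω E A ∧ Stab Ω E B ∧ A ⊓ B = ⊥

/-- the operators in `Ω` have matrix entries in `E` -/
def OpIn (b : Module.Basis ι k W) (Ω : Set (W →ₗ[k] W)) (E : Subfield k) : Prop :=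
  ∀ ω ∈ Ω, ∀ i j, b.repr (ω (b i)) j ∈ E

end NU

/-- change of rings for a pp condition -/
def PP.map {A R : Type u} [Ring A] [Ring R] (f : A →+* R) (φ : PP A) : PP R :=
  ⟨φ.l, φ.m, fun j => f (φ.a j), fun i j => f (φ.b i j)⟩

end Pool.SD
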